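import Pool.Agent.Helper56.TwoSheet.Main

namespace Pool.Agent.Results.MP_9788a7_an.RankTwoNonStandard

open Pool.Agent.Helper56.TwoSheet Complex

/-- Let `A` and `B` be the open discs of radius `√2` centred at `-i` and `i`.  Their boundary
circles meet exactly at the points `1` and `-1`.  For every real `p ≥ 1` there is a closed
invariant subspace `E` of `M` on `E^p(A) ⊕ E^p(B)` whose rank function is equal to `2` on the
whole of `A ∩ B` and an element of the standard subspace of `E` which is not in `E`. -/
theorem result (p : ℝ) (hp : 1 ≤ p) :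
    frontier (Metric.ball (-I) √2) ∩ frontier (Metric.ball I √2) = {1, -1} ∧
    ∃ (Φ : RiemannMaps (Metric.ball (-I) √2) (Metric.ball I √2)) (E : Submodule ℂ Pair),
      IsInvariantSubspace p Φ E ∧
      (∀ lam ∈ Metric.ball (-I) √2 ∩ Metric.ball I √2, rankFunction p Φ E lam = 2) ∧
      ∃ f ∈ standardSubspace p Φ E, f ∉ E := by
  refine ⟨?_, ?_⟩
  · rw [frontier_ball _ (by positivity), frontier_ball _ (by positivity)]
    ext z
    have hn : ∀ c : ℂ, z ∈ Metric.sphere c √2 ↔ (z.re - c.re) ^ 2 + (z.im - c.im) ^ 2 = 2 := by
      intro c
      rw [mem_sphere_iff_norm]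
      constructor
      · intro h
        have h2 : ‖z - c‖ ^ 2 = 2 := by rw [h, Real.sq_sqrt (by norm_num)]
        rw [Complex.sq_norm, Complex.normSq_apply] at h2
        simp only [sub_re, sub_im] at h2
        linarith
      · intro h
        have h2 : ‖z - c‖ ^ 2 = √2 ^ 2 := by
          rw [Real.sq_sqrt (by norm_num), Complex.sq_norm, Complex.normSq_apply]
          simp only [sub_re, sub_im]
          linarith
        exact (sq_eq_sq₀ (norm_nonneg _) (by positivity)).1 h2
    rw [Set.mem_inter_iff, hn, hn, Set.mem_insert_iff, Set.mem_singleton_iff]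
    simp only [neg_re, neg_im, I_re, I_im]
    constructor
    · rintro ⟨h1, h2⟩
      have him : z.im = 0 := by linarith
      have hre : (z.re - 1) * (z.re + 1) = 0 := by rw [him] at h1; linarith
      rcases mul_eq_zero.1 hre with h | h
      · left; exact Complex.ext (by simp; linarith) (by simpa using him)
      · right; exact Complex.ext (by simp; linarith) (by simpa using him)
    · rintro (h | h) <;> · rw [h]; norm_num
  · have e1 : Metric.ball (-I) √2 = dsk 1 := by simp [dsk]
    have e2 : Metric.ball I √2 = dsk (-1) := by simp [dsk]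
    rw [e1, e2]
    exact ⟨maps, invSpace p hp, isInvariant_invSpace hp, fun lam hl => rank_eq_two hp hl,
      target, target_mem_standard hp, target_not_mem hp⟩

end Pool.Agent.Results.MP_9788a7_an.RankTwoNonStandard
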